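import Pool.Agent.H351Z.Ladder

set_option autoImplicit false

namespace Pool.Agent.Results.MP_87f021_gt.InterClosedCounterexample

open TopologicalSpace Pool.Agent.H351Z.Ladder in
/-- There is a `T1` space without isolated points with a base that is closed under finite
intersections and is not the union of two disjoint subfamilies that are both bases. -/
theorem result : ∃ (X : Type) (_ : TopologicalSpace X), T1Space X ∧
    (∀ x : X, ¬ IsOpen ({x} : Set X)) ∧
    ∃ B : Set (Set X), IsTopologicalBasis B ∧ (∀ U ∈ B, ∀ V ∈ B, U ∩ V ∈ B) ∧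
      ¬ ∃ B₀ B₁ : Set (Set X), B₀ ∪ B₁ = B ∧ B₀ ∩ B₁ = ∅ ∧
        IsTopologicalBasis B₀ ∧ IsTopologicalBasis B₁ :=
  ⟨X, inferInstance, t1, crowded, Bs, isBasis, inter_mem,
    fun ⟨B₀, B₁, h1, h2, h3, h4⟩ => not_resolvable B₀ B₁ h1 h2 h3 h4⟩

end Pool.Agent.Results.MP_87f021_gt.InterClosedCounterexample
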